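import Pool.Agent.W973.SRR.Defs

set_option autoImplicit false

namespace Pool.Agent.W194.SRR

open Pool.Agent.W973.SRR Pool.Agent.NPC

lemma nr_div (i : ℕ) : nr i / 3 = i / 3 := by unfold nr; omega
lemma pr_div (i : ℕ) : pr i / 3 = i / 3 := by unfold pr; omega
lemma nr_pr (i : ℕ) : nr (pr i) = i := by unfold nr pr; omega
lemma pr_nr (i : ℕ) : pr (nr i) = i := by unfold nr pr; omega
lemma nr_nr (i : ℕ) : nr (nr i) = pr i := by unfold nr pr; omega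
lemma pr_pr (i : ℕ) : pr (pr i) = nr i := by unfold nr pr; omega

lemma idxP (i : ℕ) : 3 * (aP i / 8) + (aP i % 8) / 2 - 1 = i := by unfold aP; omega
lemma idxQ (i : ℕ) : 3 * (aQ i / 8) + (aQ i % 8) / 2 - 1 = i := by unfold aQ; omega
lemma divP (i : ℕ) : aP i / 8 = i / 3 := by unfold aP; omega
lemma divQ (i : ℕ) : aQ i / 8 = i / 3 := by unfold aQ; omega
lemma aP_inj {i j : ℕ} (h : aP i = aP j) : i = j := by unfold aP at h; omega
lemma aQ_inj {i j : ℕ} (h : aQ i = aQ j) : i = j := by unfold aQ at h; omega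
lemma aP_ne_aQ (i j : ℕ) : aP i ≠ aQ j := by unfold aP aQ; omega
lemma aP_ne_aV (i j : ℕ) : aP i ≠ aV j := by unfold aP aV; omega
lemma aP_ne_aW (i j : ℕ) : aP i ≠ aW j := by unfold aP aW; omega
lemma aQ_ne_aV (i j : ℕ) : aQ i ≠ aV j := by unfold aQ aV; omega
lemma aQ_ne_aW (i j : ℕ) : aQ i ≠ aW j := by unfold aQ aW; omega

variable (ψ : CNF) (T : ℕ → Bool)

/-- score of `aP i` at `aV` -/
def fV (i : ℕ) : ℕ :=
  if T i = true then (if T (pr i) = true then 6 else 5) else (if T (pr i) = true then 3 else 2)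

/-- score of `aQ i` at `aW` -/
def fW (i : ℕ) : ℕ :=
  if T (nr i) = true then (if T (pr i) = true then 2 else 3)
    else (if T (pr i) = true then 5 else 6)

lemma sc_VW (c : ℕ) : sc ψ T (aV c) (aW c) = 4 := by
  unfold sc
  rw [if_pos (by unfold aV; omega), if_pos (by unfold aV aW; omega)]

lemma sc_WV (c : ℕ) : sc ψ T (aW c) (aV c) = 4 := by
  unfold sc
  rw [if_neg (by unfold aW; omega), if_pos (by unfold aW; omega), if_pos (by unfold aV aW; omega)]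

lemma sc_VP (i : ℕ) : sc ψ T (aV (i / 3)) (aP i) = fV T i := by
  unfold sc
  rw [if_pos (by unfold aV; omega), if_neg (by unfold aV aP; omega),
    if_pos (by unfold aV aP; omega), idxP]
  rfl

lemma sc_WQ (i : ℕ) : sc ψ T (aW (i / 3)) (aQ i) = fW T i := by
  unfold sc
  rw [if_neg (by unfold aW; omega), if_pos (by unfold aW; omega),
    if_neg (by unfold aQ aW; omega), if_pos (by unfold aQ aW; omega), idxQ]
  rfl

lemma sc_V0 {c b : ℕ} (h : sc ψ T (aV c) b ≠ 0) : b = aW c ∨ ∃ i, i / 3 = c ∧ b = aP i := by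
  by_contra hc
  push Not at hc
  apply h
  unfold sc
  rw [if_pos (by unfold aV; omega), if_neg (by have := hc.1; unfold aW at this; unfold aV; omega)]
  rw [if_neg]
  rintro ⟨h1, h2, h3⟩
  refine hc.2 (3 * (b / 8) + (b % 8) / 2 - 1) ?_ ?_
  · unfold aV at h1; omega
  · unfold aP; unfold aV at h1; omega

lemma sc_W0 {c b : ℕ} (h : sc ψ T (aW c) b ≠ 0) : b = aV c ∨ ∃ i, i / 3 = c ∧ b = aQ i := by
  by_contra hc
  push Not at hc
  apply h
  unfold sc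
  rw [if_neg (by unfold aW; omega), if_pos (by unfold aW; omega),
    if_neg (by have := hc.1; unfold aV at this; unfold aW; omega)]
  rw [if_neg]
  rintro ⟨h1, h2, h3⟩
  refine hc.2 (3 * (b / 8) + (b % 8) / 2 - 1) ?_ ?_
  · unfold aW at h1; omega
  · unfold aQ; unfold aW at h1; omega

lemma sc_P (i b : ℕ) : sc ψ T (aP i) b = if b = aQ i then 4 else if b = aV (i / 3) then
    (if T i = true then 3 else 5) else if b = cnP ψ i then
    (if T (nr i) = true then 2 else 6) else 0 := by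
  unfold sc
  rw [if_neg (by unfold aP; omega), if_neg (by unfold aP; omega), if_pos (by unfold aP; omega),
    idxP, divP]
  have : aP i + 1 = aQ i := by unfold aP aQ; omega
  rw [this]

lemma sc_Q (i b : ℕ) : sc ψ T (aQ i) b = if b = aP i then 4 else if b = cnQ ψ i then
    (if T i = true then 6 else 2) else if b = aW (i / 3) then
    (if T (nr i) = true then 5 else 3) else 0 := by
  unfold sc
  rw [if_neg (by unfold aQ; omega), if_neg (by unfold aQ; omega), if_neg (by unfold aQ; omega),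
    idxQ, divQ]
  have : (b + 1 = aQ i) ↔ (b = aP i) := by unfold aP aQ; omega
  simp only [this]

lemma sc_PQ (i : ℕ) : sc ψ T (aP i) (aQ i) = 4 := by rw [sc_P, if_pos rfl]
lemma sc_QP (i : ℕ) : sc ψ T (aQ i) (aP i) = 4 := by rw [sc_Q, if_pos rfl]
lemma sc_PV (i : ℕ) : sc ψ T (aP i) (aV (i / 3)) = if T i = true then 3 else 5 := by
  rw [sc_P, if_neg (fun h => aQ_ne_aV _ _ h.symm), if_pos rfl]

lemma ot_cases (l : ℕ) : ot ψ l = aQ l ∨ ot ψ l = aP (pr l) := by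
  unfold ot; split_ifs <;> simp
lemma inn_cases (l : ℕ) : inn ψ l = aQ l ∨ inn ψ l = aP (pr l) := by
  unfold inn; split_ifs <;> simp

lemma cnQ_ne_aW (i j : ℕ) : cnQ ψ i ≠ aW j := by
  unfold cnQ
  split_ifs
  · rcases inn_cases ψ (nxt ψ i) with h | h <;> rw [h]
    · exact aQ_ne_aW _ _
    · exact aP_ne_aW _ _
  · rcases ot_cases ψ (prv ψ i) with h | h <;> rw [h]
    · exact aQ_ne_aW _ _
    · exact aP_ne_aW _ _

lemma cnP_ne_aV (i j : ℕ) : cnP ψ i ≠ aV j := by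
  unfold cnP
  split_ifs
  · rcases ot_cases ψ (prv ψ (nr i)) with h | h <;> rw [h]
    · exact aQ_ne_aV _ _
    · exact aP_ne_aV _ _
  · rcases inn_cases ψ (nxt ψ (nr i)) with h | h <;> rw [h]
    · exact aQ_ne_aV _ _
    · exact aP_ne_aV _ _

lemma sc_QW (i : ℕ) : sc ψ T (aQ i) (aW (i / 3)) = if T (nr i) = true then 5 else 3 := by
  rw [sc_Q, if_neg (fun h => aP_ne_aW _ _ h.symm), if_neg (fun h => cnQ_ne_aW _ _ _ h.symm),
    if_pos rfl]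

section
variable {ψ}

/-- `cnP i` is a terminal of an occurrence with the variable of `nr i`. -/
lemma cnP_form (h2 : S_OCC) {i : ℕ} (hi : nr i < NO ψ) :
    ∃ l < NO ψ, vv ψ l = vv ψ (nr i) ∧ (cnP ψ i = aQ l ∨ cnP ψ i = aP (pr l)) := by
  obtain ⟨a1, a2, a3, a4, -, -⟩ := (h2 ψ).1 (nr i) hi
  unfold cnP
  split_ifs
  · exact ⟨_, a2, a4, ot_cases ψ _⟩
  · exact ⟨_, a1, a3, inn_cases ψ _⟩

lemma cnQ_form (h2 : S_OCC) {i : ℕ} (hi : i < NO ψ) :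
    ∃ l < NO ψ, vv ψ l = vv ψ i ∧ (cnQ ψ i = aQ l ∨ cnQ ψ i = aP (pr l)) := by
  obtain ⟨a1, a2, a3, a4, -, -⟩ := (h2 ψ).1 i hi
  unfold cnQ
  split_ifs
  · exact ⟨_, a1, a3, inn_cases ψ _⟩
  · exact ⟨_, a2, a4, ot_cases ψ _⟩

lemma sc_PC (h1 : S_BAS) (h2 : S_OCC) (hD : Distinct3 ψ) {i : ℕ} (hi : i < NO ψ) :
    sc ψ T (aP i) (cnP ψ i) = if T (nr i) = true then 2 else 6 := by
  obtain ⟨b1, b2, b3, b4, b5⟩ := (h1 ψ).2.2 hD i hi
  have hne : cnP ψ i ≠ aQ i := by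
    obtain ⟨l, hl, hl2, h | h⟩ := cnP_form h2 b1
    · rw [h]
      intro h'
      rw [aQ_inj h'] at hl2
      exact b3 hl2.symm
    · rw [h]; exact aP_ne_aQ _ _
  rw [sc_P, if_neg hne, if_neg (cnP_ne_aV ψ _ _), if_pos rfl]

lemma sc_QC (h1 : S_BAS) (h2 : S_OCC) (hD : Distinct3 ψ) {i : ℕ} (hi : i < NO ψ) :
    sc ψ T (aQ i) (cnQ ψ i) = if T i = true then 6 else 2 := by
  have hne : cnQ ψ i ≠ aP i := by
    obtain ⟨l, hl, hl2, h | h⟩ := cnQ_form h2 hi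
    · rw [h]; exact (aP_ne_aQ _ _).symm
    · rw [h]
      intro h'
      have h3 := aP_inj h'
      obtain ⟨b1, b2, b3, b4, b5⟩ := (h1 ψ).2.2 hD l hl
      rw [h3] at b4
      exact b4 hl2.symm
  rw [sc_Q, if_neg hne, if_pos rfl]

lemma sc_ot (h1 : S_BAS) (h2 : S_OCC) (hD : Distinct3 ψ) {τ : ℕ → Bool} {T : ℕ → Bool}
    (hT : ∀ i, T i = decide (τ (vv ψ i) = (lit ψ i).1)) {l : ℕ} (hl : l < NO ψ) :
    sc ψ T (ot ψ l) (inn ψ (nxt ψ l)) = if τ (vv ψ l) = true then 6 else 2 := by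
  obtain ⟨b1, b2, b3, b4, b5⟩ := (h1 ψ).2.2 hD l hl
  by_cases hp : (lit ψ l).1 = true
  · have e : cnQ ψ l = inn ψ (nxt ψ l) := by unfold cnQ; rw [if_pos hp]
    have e2 : ot ψ l = aQ l := by unfold ot; rw [if_pos hp]
    rw [e2, ← e, sc_QC T h1 h2 hD hl, hT l, hp]
    simp
  · have e : cnP ψ (pr l) = inn ψ (nxt ψ l) := by unfold cnP; rw [nr_pr, if_neg hp]
    have e2 : ot ψ l = aP (pr l) := by unfold ot; rw [if_neg hp]
    rw [e2, ← e, sc_PC T h1 h2 hD b2, nr_pr, hT l]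
    rw [Bool.not_eq_true] at hp
    rw [hp]
    cases τ (vv ψ l) <;> simp

lemma sc_inn (h1 : S_BAS) (h2 : S_OCC) (hD : Distinct3 ψ) {τ : ℕ → Bool} {T : ℕ → Bool}
    (hT : ∀ i, T i = decide (τ (vv ψ i) = (lit ψ i).1)) {l : ℕ} (hl : l < NO ψ) :
    sc ψ T (inn ψ l) (ot ψ (prv ψ l)) = if τ (vv ψ l) = true then 2 else 6 := by
  obtain ⟨b1, b2, b3, b4, b5⟩ := (h1 ψ).2.2 hD l hl
  by_cases hp : (lit ψ l).1 = true
  · have e : cnP ψ (pr l) = ot ψ (prv ψ l) := by unfold cnP; rw [nr_pr, if_pos hp]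
    have e2 : inn ψ l = aP (pr l) := by unfold inn; rw [if_pos hp]
    rw [e2, ← e, sc_PC T h1 h2 hD b2, nr_pr, hT l, hp]
    simp
  · have e : cnQ ψ l = ot ψ (prv ψ l) := by unfold cnQ; rw [if_neg hp]
    have e2 : inn ψ l = aQ l := by unfold inn; rw [if_neg hp]
    rw [e2, ← e, sc_QC T h1 h2 hD hl, hT l]
    rw [Bool.not_eq_true] at hp
    rw [hp]
    cases τ (vv ψ l) <;> simp

lemma ge3_Q (h3 : S_EV) (hD : Distinct3 ψ) {i : ℕ} (hi : i < NO ψ) {o : Option ℕ}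
    (ho : o ≠ some (vv ψ i)) : 3 ≤ sc ψ T (aQ i) (mt ψ o (aQ i)) := by
  rw [((h3 ψ hD).2.2 i hi o).2, if_neg ho]
  split_ifs
  · rw [sc_QW]; split_ifs <;> omega
  · rw [sc_QP]; omega

lemma ge3_P (h3 : S_EV) (hD : Distinct3 ψ) {i : ℕ} (hi : i < NO ψ) {o : Option ℕ}
    (ho : o ≠ some (vv ψ (nr i))) : 3 ≤ sc ψ T (aP i) (mt ψ o (aP i)) := by
  rw [((h3 ψ hD).2.2 i hi o).1]
  split_ifs
  · rw [sc_PV]; split_ifs <;> omega
  · rw [sc_PQ]; omega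

lemma ge3_ot (h1 : S_BAS) (h3 : S_EV) (hD : Distinct3 ψ) {l : ℕ} (hl : l < NO ψ) {o : Option ℕ}
    (ho : o ≠ some (vv ψ l)) : 3 ≤ sc ψ T (ot ψ l) (mt ψ o (ot ψ l)) := by
  obtain ⟨b1, b2, b3, b4, b5⟩ := (h1 ψ).2.2 hD l hl
  rcases ot_cases ψ l with h | h <;> rw [h]
  · exact ge3_Q T h3 hD hl ho
  · exact ge3_P T h3 hD b2 (by rwa [nr_pr])

lemma ge3_inn (h1 : S_BAS) (h3 : S_EV) (hD : Distinct3 ψ) {l : ℕ} (hl : l < NO ψ) {o : Option ℕ}
    (ho : o ≠ some (vv ψ l)) : 3 ≤ sc ψ T (inn ψ l) (mt ψ o (inn ψ l)) := by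
  obtain ⟨b1, b2, b3, b4, b5⟩ := (h1 ψ).2.2 hD l hl
  rcases inn_cases ψ l with h | h <;> rw [h]
  · exact ge3_Q T h3 hD hl ho
  · exact ge3_P T h3 hD b2 (by rwa [nr_pr])

/-- The pair `a, b` does not block. -/
def NB (ψ : CNF) (T : ℕ → Bool) (o : Option ℕ) (a b : ℕ) : Prop :=
  sc ψ T a b < sc ψ T a (mt ψ o a) ∨ sc ψ T b a < sc ψ T b (mt ψ o b)

lemma NB_symm {ψ : CNF} {T : ℕ → Bool} {o : Option ℕ} {a b : ℕ} (h : NB ψ T o a b) :
    NB ψ T o b a := Or.symm h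

lemma E5P (h1 : S_BAS) (h2 : S_OCC) (h3 : S_EV) (hD : Distinct3 ψ) {τ : ℕ → Bool} {T : ℕ → Bool}
    (hT : ∀ i, T i = decide (τ (vv ψ i) = (lit ψ i).1)) {o : Option ℕ} {i : ℕ} (hi : i < NO ψ)
    (hv : cnP ψ i ≠ mt ψ o (aP i)) : NB ψ T o (aP i) (cnP ψ i) := by
  obtain ⟨b1, b2, b3, b4, b5⟩ := (h1 ψ).2.2 hD i hi
  obtain ⟨a1, a2, a3, a4, a5, a6⟩ := (h2 ψ).1 (nr i) b1
  have ho : o ≠ some (vv ψ (nr i)) := by
    intro ho
    apply hv
    rw [((h3 ψ hD).2.2 i hi o).1, if_neg (by rw [ho]; simpa using b3), if_pos ho]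
  have g1 := ge3_P T h3 hD hi ho
  have s1 := sc_PC T h1 h2 hD hi
  unfold NB
  by_cases hp : (lit ψ (nr i)).1 = true
  · have e : cnP ψ i = ot ψ (prv ψ (nr i)) := by unfold cnP; rw [if_pos hp]
    have e2 : inn ψ (nr i) = aP i := by unfold inn; rw [if_pos hp, pr_nr]
    have s2 := sc_ot h1 h2 hD hT a2
    rw [a6, e2, ← e, a4] at s2
    have g2 := ge3_ot T h1 h3 hD a2 (o := o) (by rwa [a4])
    rw [← e] at g2
    rw [s1, s2, hT (nr i), hp]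
    cases τ (vv ψ (nr i)) <;> simp <;> omega
  · have e : cnP ψ i = inn ψ (nxt ψ (nr i)) := by unfold cnP; rw [if_neg hp]
    have e2 : ot ψ (nr i) = aP i := by unfold ot; rw [if_neg hp, pr_nr]
    have s2 := sc_inn h1 h2 hD hT a1
    rw [a5, e2, ← e, a3] at s2
    have g2 := ge3_inn T h1 h3 hD a1 (o := o) (by rwa [a3])
    rw [← e] at g2
    rw [Bool.not_eq_true] at hp
    rw [s1, s2, hT (nr i), hp]
    cases τ (vv ψ (nr i)) <;> simp <;> omega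

lemma E5Q (h1 : S_BAS) (h2 : S_OCC) (h3 : S_EV) (hD : Distinct3 ψ) {τ : ℕ → Bool} {T : ℕ → Bool}
    (hT : ∀ i, T i = decide (τ (vv ψ i) = (lit ψ i).1)) {o : Option ℕ} {i : ℕ} (hi : i < NO ψ)
    (hv : cnQ ψ i ≠ mt ψ o (aQ i)) : NB ψ T o (aQ i) (cnQ ψ i) := by
  obtain ⟨b1, b2, b3, b4, b5⟩ := (h1 ψ).2.2 hD i hi
  obtain ⟨a1, a2, a3, a4, a5, a6⟩ := (h2 ψ).1 i hi
  have ho : o ≠ some (vv ψ i) := by
    intro ho
    apply hv
    rw [((h3 ψ hD).2.2 i hi o).2, if_pos ho]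
  have g1 := ge3_Q T h3 hD hi ho
  have s1 := sc_QC T h1 h2 hD hi
  unfold NB
  by_cases hp : (lit ψ i).1 = true
  · have e : cnQ ψ i = inn ψ (nxt ψ i) := by unfold cnQ; rw [if_pos hp]
    have e2 : ot ψ i = aQ i := by unfold ot; rw [if_pos hp]
    have s2 := sc_inn h1 h2 hD hT a1
    rw [a5, e2, ← e, a3] at s2
    have g2 := ge3_inn T h1 h3 hD a1 (o := o) (by rwa [a3])
    rw [← e] at g2
    rw [s1, s2, hT i, hp]
    cases τ (vv ψ i) <;> simp <;> omega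
  · have e : cnQ ψ i = ot ψ (prv ψ i) := by unfold cnQ; rw [if_neg hp]
    have e2 : inn ψ i = aQ i := by unfold inn; rw [if_neg hp]
    have s2 := sc_ot h1 h2 hD hT a2
    rw [a6, e2, ← e, a4] at s2
    have g2 := ge3_ot T h1 h3 hD a2 (o := o) (by rwa [a4])
    rw [← e] at g2
    rw [Bool.not_eq_true] at hp
    rw [s1, s2, hT i, hp]
    cases τ (vv ψ i) <;> simp <;> omega

lemma clause3 {i j : ℕ} (h : j / 3 = i / 3) : j = i ∨ j = nr i ∨ j = pr i := by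
  unfold nr pr; omega

/-- the partners of `aV` and `aW` -/
lemma vals (h1 : S_BAS) (h3 : S_EV) (hD : Distinct3 ψ) {i : ℕ} (hi : i < NO ψ) (o : Option ℕ) :
    (o = some (vv ψ i) → mt ψ o (aV (i / 3)) = aP i ∧ mt ψ o (aW (i / 3)) = aQ (pr i)) ∧
    (o = some (vv ψ (nr i)) → mt ψ o (aV (i / 3)) = aP (nr i) ∧ mt ψ o (aW (i / 3)) = aQ i) ∧
    (o = some (vv ψ (pr i)) → mt ψ o (aV (i / 3)) = aP (pr i) ∧
      mt ψ o (aW (i / 3)) = aQ (nr i)) ∧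
    (o ≠ some (vv ψ i) → o ≠ some (vv ψ (nr i)) → o ≠ some (vv ψ (pr i)) →
      mt ψ o (aV (i / 3)) = aW (i / 3) ∧ mt ψ o (aW (i / 3)) = aV (i / 3)) := by
  obtain ⟨b1, b2, b3, b4, b5⟩ := (h1 ψ).2.2 hD i hi
  refine ⟨?_, ?_, ?_, ?_⟩
  · rintro rfl
    exact (h3 ψ hD).1 i hi
  · rintro rfl
    have := (h3 ψ hD).1 (nr i) b1
    rwa [nr_div, pr_nr] at this
  · rintro rfl
    have := (h3 ψ hD).1 (pr i) b2
    rwa [pr_div, pr_pr] at this
  · intro c1 c2 c3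
    refine (h3 ψ hD).2.1 (i / 3) ?_ o ?_
    · have := (h1 ψ).1
      omega
    · intro j hj hji
      rcases clause3 hji with rfl | rfl | rfl <;> assumption

lemma sc_VPn (i : ℕ) : sc ψ T (aV (i / 3)) (aP (nr i)) = fV T (nr i) := by
  rw [← sc_VP ψ T (nr i), nr_div]
lemma sc_VPp (i : ℕ) : sc ψ T (aV (i / 3)) (aP (pr i)) = fV T (pr i) := by
  rw [← sc_VP ψ T (pr i), pr_div]
lemma sc_WQn (i : ℕ) : sc ψ T (aW (i / 3)) (aQ (nr i)) = fW T (nr i) := by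
  rw [← sc_WQ ψ T (nr i), nr_div]
lemma sc_WQp (i : ℕ) : sc ψ T (aW (i / 3)) (aQ (pr i)) = fW T (pr i) := by
  rw [← sc_WQ ψ T (pr i), pr_div]

lemma nae3 {T : ℕ → Bool} {i : ℕ}
    (h : ¬ (T (3 * (i / 3)) = T (3 * (i / 3) + 1) ∧ T (3 * (i / 3) + 1) = T (3 * (i / 3) + 2))) :
    ¬ (T i = T (nr i) ∧ T (nr i) = T (pr i)) := by
  rintro ⟨e1, e2⟩
  apply h
  have : i % 3 = 0 ∨ i % 3 = 1 ∨ i % 3 = 2 := by omega
  rcases this with h0 | h0 | h0
  · have u1 : 3 * (i / 3) = i := by omega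
    have u2 : nr i = 3 * (i / 3) + 1 := by unfold nr; omega
    have u3 : pr i = 3 * (i / 3) + 2 := by unfold pr; omega
    rw [← u2, ← u3, u1]; exact ⟨e1, e2⟩
  · have u1 : 3 * (i / 3) + 1 = i := by omega
    have u2 : nr i = 3 * (i / 3) + 2 := by unfold nr; omega
    have u3 : pr i = 3 * (i / 3) := by unfold pr; omega
    rw [u1, ← u2, ← u3]; exact ⟨(e1.trans e2).symm, e1⟩
  · have u1 : 3 * (i / 3) + 2 = i := by omega
    have u2 : nr i = 3 * (i / 3) := by unfold nr; omega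
    have u3 : pr i = 3 * (i / 3) + 1 := by unfold pr; omega
    rw [u1, ← u3, ← u2]; exact ⟨e2, (e1.trans e2).symm⟩

/-- values of the scores, in terms of the three truth values -/
lemma E2 (h1 : S_BAS) (h2 : S_OCC) (h3 : S_EV) (hD : Distinct3 ψ) {T : ℕ → Bool} {i : ℕ}
    (hi : i < NO ψ) (hn : ¬ (T i = T (nr i) ∧ T (nr i) = T (pr i))) {o : Option ℕ}
    (hv : aP i ≠ mt ψ o (aV (i / 3))) : NB ψ T o (aV (i / 3)) (aP i) := by
  obtain ⟨b1, b2, b3, b4, b5⟩ := (h1 ψ).2.2 hD i hi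
  obtain ⟨v1, v2, v3, v4⟩ := vals h1 h3 hD hi o
  have vP := ((h3 ψ hD).2.2 i hi o).1
  have c1 : o ≠ some (vv ψ i) := fun h => hv (v1 h).1.symm
  rw [if_neg c1] at vP
  unfold NB
  rw [sc_VP, sc_PV]
  by_cases c2 : o = some (vv ψ (nr i))
  · rw [if_pos c2] at vP
    rw [(v2 c2).1, vP, sc_VPn, sc_PC T h1 h2 hD hi]
    unfold fV
    rw [pr_nr]
    revert hn
    cases T i <;> cases T (nr i) <;> cases T (pr i) <;> simp
  · rw [if_neg c2] at vP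
    rw [vP, sc_PQ]
    by_cases c3 : o = some (vv ψ (pr i))
    · rw [(v3 c3).1, sc_VPp]
      unfold fV
      rw [pr_pr]
      revert hn
      cases T i <;> cases T (nr i) <;> cases T (pr i) <;> simp
    · rw [(v4 c1 c2 c3).1, sc_VW]
      unfold fV
      revert hn
      cases T i <;> cases T (nr i) <;> cases T (pr i) <;> simp

lemma E3 (h1 : S_BAS) (h2 : S_OCC) (h3 : S_EV) (hD : Distinct3 ψ) {T : ℕ → Bool} {i : ℕ}
    (hi : i < NO ψ) (hn : ¬ (T i = T (nr i) ∧ T (nr i) = T (pr i))) {o : Option ℕ}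
    (hv : aQ i ≠ mt ψ o (aW (i / 3))) : NB ψ T o (aW (i / 3)) (aQ i) := by
  obtain ⟨b1, b2, b3, b4, b5⟩ := (h1 ψ).2.2 hD i hi
  obtain ⟨v1, v2, v3, v4⟩ := vals h1 h3 hD hi o
  have vQ := ((h3 ψ hD).2.2 i hi o).2
  have c2 : o ≠ some (vv ψ (nr i)) := fun h => hv (v2 h).2.symm
  unfold NB
  rw [sc_WQ, sc_QW]
  by_cases c1 : o = some (vv ψ i)
  · rw [if_pos c1] at vQ
    rw [(v1 c1).2, vQ, sc_WQp, sc_QC T h1 h2 hD hi]
    unfold fW
    rw [nr_pr, pr_pr]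
    revert hn
    cases T i <;> cases T (nr i) <;> cases T (pr i) <;> simp
  · rw [if_neg c1, if_neg c2] at vQ
    rw [vQ, sc_QP]
    by_cases c3 : o = some (vv ψ (pr i))
    · rw [(v3 c3).2, sc_WQn]
      unfold fW
      rw [nr_nr, pr_nr]
      revert hn
      cases T i <;> cases T (nr i) <;> cases T (pr i) <;> simp
    · rw [(v4 c1 c2 c3).2, sc_WV]
      unfold fW
      revert hn
      cases T i <;> cases T (nr i) <;> cases T (pr i) <;> simp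

lemma E4 (h1 : S_BAS) (h2 : S_OCC) (h3 : S_EV) (hD : Distinct3 ψ) {T : ℕ → Bool} {i : ℕ}
    (hi : i < NO ψ) {o : Option ℕ} (hv : aQ i ≠ mt ψ o (aP i)) : NB ψ T o (aP i) (aQ i) := by
  obtain ⟨b1, b2, b3, b4, b5⟩ := (h1 ψ).2.2 hD i hi
  obtain ⟨vP, vQ⟩ := (h3 ψ hD).2.2 i hi o
  unfold NB
  rw [sc_PQ, sc_QP]
  by_cases c1 : o = some (vv ψ i)
  · rw [if_pos c1] at vP vQ
    rw [vP, vQ, sc_PV, sc_QC T h1 h2 hD hi]
    cases T i <;> simp
  · rw [if_neg c1] at vP vQ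
    by_cases c2 : o = some (vv ψ (nr i))
    · rw [if_pos c2] at vP vQ
      rw [vP, vQ, sc_PC T h1 h2 hD hi, sc_QW]
      cases T (nr i) <;> simp
    · rw [if_neg c2] at vP
      exact absurd vP.symm hv

lemma E1 (h1 : S_BAS) (h3 : S_EV) (hD : Distinct3 ψ) {T : ℕ → Bool} {c : ℕ}
    (hc : c < ψ.length) {o : Option ℕ}
    (hv : aW c ≠ mt ψ o (aV c)) : NB ψ T o (aV c) (aW c) := by
  by_cases h : ∀ i < NO ψ, i / 3 = c → o ≠ some (vv ψ i)
  · exact absurd ((h3 ψ hD).2.1 c hc o h).1.symm hv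
  · push Not at h
    obtain ⟨i, hi, rfl, ho⟩ := h
    obtain ⟨v1, -, -, -⟩ := vals h1 h3 hD hi o
    unfold NB
    rw [sc_VW, sc_WV, (v1 ho).1, (v1 ho).2, sc_VP, sc_WQp]
    unfold fV fW
    rw [nr_pr, pr_pr]
    cases T i <;> cases T (nr i) <;> cases T (pr i) <;> simp

lemma ge2 (h1 : S_BAS) (h2 : S_OCC) (h3 : S_EV) (h4 : S_KIND) (hD : Distinct3 ψ) {T : ℕ → Bool}
    (o : Option ℕ) {a : ℕ} (ha : a < 8 * ψ.length) : 2 ≤ sc ψ T a (mt ψ o a) := by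
  have hNO := (h1 ψ).1
  rcases h4 _ _ ha with ⟨c, hc, rfl⟩ | ⟨c, hc, rfl⟩ | ⟨i, hi, rfl⟩ | ⟨i, hi, rfl⟩
  · by_cases h : ∀ i < NO ψ, i / 3 = c → o ≠ some (vv ψ i)
    · rw [((h3 ψ hD).2.1 c hc o h).1, sc_VW]; omega
    · push Not at h
      obtain ⟨i, hi, rfl, ho⟩ := h
      rw [((vals h1 h3 hD hi o).1 ho).1, sc_VP]
      unfold fV; split_ifs <;> omega
  · by_cases h : ∀ i < NO ψ, i / 3 = c → o ≠ some (vv ψ i)
    · rw [((h3 ψ hD).2.1 c hc o h).2, sc_WV]; omega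
    · push Not at h
      obtain ⟨i, hi, rfl, ho⟩ := h
      rw [((vals h1 h3 hD hi o).1 ho).2, sc_WQp]
      unfold fW; split_ifs <;> omega
  · rw [← hNO] at hi
    rw [((h3 ψ hD).2.2 i hi o).1]
    split_ifs
    · rw [sc_PV]; split_ifs <;> omega
    · rw [sc_PC T h1 h2 hD hi]; split_ifs <;> omega
    · rw [sc_PQ]; omega
  · rw [← hNO] at hi
    rw [((h3 ψ hD).2.2 i hi o).2]
    split_ifs
    · rw [sc_QC T h1 h2 hD hi]; split_ifs <;> omega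
    · rw [sc_QW]; split_ifs <;> omega
    · rw [sc_QP]; omega

end

theorem scT (h1 : S_BAS) (h2 : S_OCC) (h3 : S_EV) (h4 : S_KIND) (h5 : S_INV) : S_SC := by
  intro ψ τ T hD hT hN o a ha b hb hab hbv
  have hNO := (h1 ψ).1
  have hn : ∀ i < NO ψ, ¬ (T i = T (nr i) ∧ T (nr i) = T (pr i)) := fun i hi =>
    nae3 (hN (i / 3) (by omega))
  have hav : a ≠ mt ψ o b := by
    intro h
    apply hbv
    rw [h, (h5 ψ hD o).inv b hb]
  change NB ψ T o a b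
  by_cases z1 : sc ψ T a b = 0
  · left
    rw [z1]
    have := ge2 h1 h2 h3 h4 hD (T := T) o ha
    omega
  by_cases z2 : sc ψ T b a = 0
  · right
    rw [z2]
    have := ge2 h1 h2 h3 h4 hD (T := T) o hb
    omega
  rcases h4 _ _ ha with ⟨c, hc, rfl⟩ | ⟨c, hc, rfl⟩ | ⟨i, hi, rfl⟩ | ⟨i, hi, rfl⟩
  · rcases sc_V0 ψ T z1 with rfl | ⟨i, rfl, rfl⟩
    · exact E1 h1 h3 hD hc hbv
    · have hi : i < NO ψ := by omega
      exact E2 h1 h2 h3 hD hi (hn i hi) hbv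
  · rcases sc_W0 ψ T z1 with rfl | ⟨i, rfl, rfl⟩
    · exact NB_symm (E1 h1 h3 hD hc hav)
    · have hi : i < NO ψ := by omega
      exact E3 h1 h2 h3 hD hi (hn i hi) hbv
  · rw [← hNO] at hi
    by_cases e1 : b = aQ i
    · subst e1
      exact E4 h1 h2 h3 hD hi hbv
    by_cases e2 : b = aV (i / 3)
    · subst e2
      exact NB_symm (E2 h1 h2 h3 hD hi (hn i hi) hav)
    by_cases e3 : b = cnP ψ i
    · subst e3
      exact E5P h1 h2 h3 hD hT hi hbv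
    · rw [sc_P, if_neg e1, if_neg e2, if_neg e3] at z1
      exact absurd rfl z1
  · rw [← hNO] at hi
    by_cases e1 : b = aP i
    · subst e1
      exact NB_symm (E4 h1 h2 h3 hD hi hav)
    by_cases e2 : b = cnQ ψ i
    · subst e2
      exact E5Q h1 h2 h3 hD hT hi hbv
    by_cases e3 : b = aW (i / 3)
    · subst e3
      exact NB_symm (E3 h1 h2 h3 hD hi (hn i hi) hav)
    · rw [sc_Q, if_neg e1, if_neg e2, if_neg e3] at z1
      exact absurd rfl z1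

end Pool.Agent.W194.SRR
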